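import Pool.Agent.H79.MC.Targets

/-!
Polynomial space algorithms for maximum cut, module BD1: the first part of the body of the
inner loop.
-/

set_option autoImplicit false

namespace Pool.Agent.H56.MC

open Pool.Agent.H79.MC

theorem par_bounds {a q n : ℕ} {A : ℕ → ℕ → ℕ} {W : ℕ} (hP : Par a q n A W) :
    2 * 2 ^ a * (n * n) + 1 ≤ W ∧ n + 1 ≤ W ∧ 1 ≤ W := by
  have h1 := hP.hW
  have h2 : 2 * 2 ^ a * (n * n) + 4 * (n + 1) ≤ (2 * 2 ^ a + a + 4) * (n + 1) * (n + 1) := by
    have h3 : 2 * 2 ^ a * (n * n) ≤ 2 * 2 ^ a * ((n + 1) * (n + 1)) :=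
      Nat.mul_le_mul_left _ (Nat.mul_le_mul (by omega) (by omega))
    have h4 : 4 * (n + 1) ≤ 4 * ((n + 1) * (n + 1)) :=
      Nat.mul_le_mul_left _ (Nat.le_mul_of_pos_left _ (by omega))
    calc 2 * 2 ^ a * (n * n) + 4 * (n + 1)
        ≤ 2 * 2 ^ a * ((n + 1) * (n + 1)) + 4 * ((n + 1) * (n + 1)) := by omega
      _ ≤ 2 * 2 ^ a * ((n + 1) * (n + 1)) + 4 * ((n + 1) * (n + 1)) +
          a * ((n + 1) * (n + 1)) := by omega
      _ = (2 * 2 ^ a + a + 4) * (n + 1) * (n + 1) := by ring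
  refine ⟨by omega, by omega, by omega⟩

theorem bits_le_one (X i : ℕ) : bits X i ≤ 1 := by
  unfold bits
  omega

theorem base_of_agree {a q n : ℕ} {A : ℕ → ℕ → ℕ} {s s' : St} {R : Finset ℕ}
    (h : Agree R ∅ s s') (h0 : 0 ∉ R) (h1 : 1 ∉ R) (h2 : 2 ∉ R) (h3 : 3 ∉ R)
    (hB : Base a q n A s) : Base a q n A s' := by
  obtain ⟨hr, ha⟩ := h
  refine ⟨?_, ?_, ?_, ?_, ?_⟩
  · rw [hr 0 h0, hB.r0]
  · rw [hr 1 h1, hB.r1]
  · rw [hr 2 h2, hB.r2]
  · rw [hr 3 h3, hB.r3]
  · intro u hu v hv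
    rw [ha 0 (by simp), hB.adj u hu v hv]

theorem dec_of_agree {a q n j τ g : ℕ} {s s' : St} {R : Finset ℕ}
    (h : Agree R ∅ s s') (h4 : 4 ∉ R) (h5 : 5 ∉ R) (hD : Dec a q n j τ g s) :
    Dec a q n j τ g s' := by
  obtain ⟨hr, ha⟩ := h
  refine ⟨?_, ?_, ?_, ?_, ?_, ?_⟩
  · rw [hr 4 h4, hD.r4]
  · rw [hr 5 h5, hD.r5]
  · intro i hi; rw [ha 4 (by simp), hD.a4 i hi]
  · intro i hi; rw [ha 5 (by simp), hD.a5 i hi]
  · intro i hi; rw [ha 6 (by simp), hD.a6 i hi]
  · intro i hi; rw [ha 7 (by simp), hD.a7 i hi]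

theorem pf_bd1 (hSUM : T_SUM) (hEVL : T_EVL) (hBNS : T_BNS) : T_BD1 := by
  intro a q n A W j τ g X c s hP hB hD hj hτ hI
  obtain ⟨hW1, hW2, hW3⟩ := par_bounds hP
  by_cases h15 : s.r 15 = 0
  · have hX : X % 2 ^ (2 ^ a * q) ≠ 0 := fun h => (hI.r15.mpr h) h15
    refine ⟨1 + 1, s.setr 13 1, Run.ite_false (by simp [mx, h15]) (by simp [ev, h15])
      (Run.set 13 (.lit 1) s (by simpa [mx] using hW3)), by omega, ⟨?_, ?_⟩, ?_, ?_⟩
    · intro i hi
      have : i ≠ 13 := by rintro rfl; simp at hi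
      simp [St.setr, Function.update_of_ne this]
    · intro k _; rfl
    · simpa [St.setr] using hW3
    · simp [St.setr, hX]
  · have hX : X % 2 ^ (2 ^ a * q) = 0 := hI.r15.mp h15
    have hb := (hBNS a q n A j g (bits X) hP.hA).2
    obtain ⟨t, s₁, hrun, ht, hag, h10⟩ := hSUM W testE s n
      (fun i i' => (if 2 ^ a * q ≤ i then 1 else 0) * A ((i + j) % n) ((i' + j) % n) *
        ((if 2 ^ a * q ≤ i' then 1 else 0) * (if bits X i = bits X i' then 1 else 0) +
          wS a q g i' * if bits X i = sS a q g i' then 1 else 0)) hB.r0 hW2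
      (by
        intro s' i i' hs hi hi' h8 h9
        exact (hEVL a q n A W j τ g s' (bits X) hP
          (base_of_agree hs (by decide) (by decide) (by decide) (by decide) hB)
          (dec_of_agree hs (by decide) (by decide) hD) hj
          (fun i hi => by rw [hs.2 2 (by simp), hI.a2 i hi])
          (fun i _ => bits_le_one X i) i hi i' hi' h8 h9).2)
      (le_trans hb (by omega))
    have h10' : s₁.r 10 = testF a q n A j g (bits X) := h10
    have h5 : s₁.r 5 = τ := by rw [hag.1 5 (by decide), hD.r5]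
    have hle : s₁.r 10 ≤ W := by rw [h10']; omega
    refine ⟨t + 1 + 1, s₁.setr 13 (s₁.r 5 + 1 - s₁.r 10), Run.ite_true (by
      simp only [mx]; have := hI.r15'; omega) (by simpa [ev] using h15)
      (Run.seq hrun (Run.set 13 (.sub (.add (.reg 5) (.lit 1)) (.reg 10)) s₁ ?_)),
      by omega, ⟨?_, ?_⟩, ?_, ?_⟩
    · simp only [mx, ev, h5]
      exact max_le (max_le (max_le (by omega) hW3) (by omega)) hle
    · intro i hi
      have h13 : i ≠ 13 := by rintro rfl; simp at hi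
      have hi' : i ∉ ({8, 9, 10} : Finset ℕ) := by
        intro h; apply hi; simp only [Finset.mem_insert, Finset.mem_singleton] at h ⊢; tauto
      simp only [St.setr, Function.update_of_ne h13]
      exact hag.1 i hi'
    · intro k hk; exact hag.2 k hk
    · simp only [St.setr, Function.update_self, h5]
      omega
    · simp only [St.setr, Function.update_self, h5, h10']
      constructor
      · intro h; right; omega
      · rintro (h | h)
        · exact absurd hX h
        · omega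

end Pool.Agent.H56.MC
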