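import Pool.Agent.H79.MC.Targets

/-!
Polynomial space algorithms for maximum cut, module BNS: bounds for the sums.
-/

set_option autoImplicit false

namespace Pool.Agent.H56.MC

open Pool.Agent.H79.MC

theorem sum_sum_le (n c : ℕ) (f : ℕ → ℕ → ℕ) (hf : ∀ i i', f i i' ≤ c) :
    ∑ i ∈ Finset.range n, ∑ i' ∈ Finset.range n, f i i' ≤ c * (n * n) := by
  calc ∑ i ∈ Finset.range n, ∑ i' ∈ Finset.range n, f i i'
      ≤ ∑ i ∈ Finset.range n, ∑ i' ∈ Finset.range n, c :=
        Finset.sum_le_sum fun i _ => Finset.sum_le_sum fun i' _ => hf i i'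
    _ = c * (n * n) := by simp; ring

theorem wS_le (a q g i : ℕ) : wS a q g i ≤ 2 * 2 ^ a := by
  unfold wS
  split_ifs <;> omega

theorem wS_eq_zero (a q g i : ℕ) (h : 2 ^ a * q ≤ i) : wS a q g i = 0 := by
  unfold wS
  rw [if_neg]
  rintro ⟨h1, -⟩
  omega

theorem ite_le_one (p : Prop) [Decidable p] : (if p then (1 : ℕ) else 0) ≤ 1 := by
  split_ifs <;> omega

theorem test_term_le (a q g i i' α s t : ℕ) (hα : α ≤ 1) :
    (if 2 ^ a * q ≤ i then 1 else 0) * α *
      ((if 2 ^ a * q ≤ i' then 1 else 0) * (if s = t then 1 else 0) +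
        wS a q g i' * if s = sS a q g i' then 1 else 0) ≤ 2 * 2 ^ a := by
  have h1 : (if 2 ^ a * q ≤ i then 1 else 0) * α ≤ 1 := by
    have := ite_le_one (2 ^ a * q ≤ i)
    nlinarith
  have h2 : (if 2 ^ a * q ≤ i' then 1 else 0) * (if s = t then 1 else 0) +
        wS a q g i' * (if s = sS a q g i' then 1 else 0) ≤ 2 * 2 ^ a := by
    have hpos : 1 ≤ 2 ^ a := Nat.one_le_two_pow
    by_cases hi : 2 ^ a * q ≤ i'
    · rw [wS_eq_zero a q g i' hi, if_pos hi, zero_mul, add_zero, one_mul]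
      have := ite_le_one (s = t)
      omega
    · rw [if_neg hi, zero_mul, zero_add]
      have h3 := wS_le a q g i'
      have h4 := ite_le_one (s = sS a q g i')
      calc wS a q g i' * (if s = sS a q g i' then 1 else 0) ≤ wS a q g i' * 1 :=
            Nat.mul_le_mul_left _ h4
        _ ≤ 2 * 2 ^ a := by omega
  calc _ ≤ 1 * (2 * 2 ^ a) := Nat.mul_le_mul h1 h2
    _ = 2 * 2 ^ a := one_mul _

theorem pf_bns : T_BNS := by
  intro a q n A j g x hA
  constructor
  · have := sum_sum_le n 1 (fun i i' =>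
      A ((i + j) % n) ((i' + j) % n) * if x i = x i' then 1 else 0) (fun i i' => by
        have h1 := hA ((i + j) % n) ((i' + j) % n)
        have h2 := ite_le_one (x i = x i')
        calc _ ≤ 1 * 1 := Nat.mul_le_mul h1 h2
          _ = 1 := one_mul _)
    rw [one_mul] at this
    exact this
  · exact sum_sum_le n (2 * 2 ^ a) _ fun i i' => test_term_le a q g i i' _ _ _ (hA _ _)

end Pool.Agent.H56.MC
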